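import Pool.Agent.H.MP_0e6b5f_nt.Eng.Places

/-!
# Places above a place, and extension to an arbitrary field
-/

namespace Pool.Agent.H.MP_0e6b5f_nt.BP

open NumberField Module IsDedekindDomain HeightOneSpectrum
open Pool.Agent.H.MP_0e6b5f_nt Pool.Agent.H.MP_0e6b5f_nt.Eng

/-- every finite place extends to any extension field -/
theorem exists_valuation_ext' {L : Type*} [Field L] [NumberField L] {E : Type*} [Field E]
    [Algebra L E] (v : HeightOneSpectrum (𝓞 L)) :
    ∃ W : ValuationSubring E,
      (v.valuation L).IsEquiv (W.valuation.comap (algebraMap L E)) := by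
  set A := (v.valuation L).valuationSubring with hA
  obtain ⟨W, h, hloc⟩ := IsLocalRing.exists_factor_valuationRing (R := A)
    ((algebraMap L E).comp A.subtype)
  refine ⟨W, ?_⟩
  rw [Valuation.isEquiv_iff_val_le_one]
  intro x
  rw [Valuation.comap_apply, ValuationSubring.valuation_le_one_iff]
  constructor
  · intro hx
    exact h ⟨x, hx⟩
  · intro hx
    by_contra hlt
    push Not at hlt
    have hx0 : x ≠ 0 := by
      rintro rfl
      rw [map_zero] at hlt
      exact absurd hlt (not_lt.mpr zero_le)
    have hinv : v.valuation L x⁻¹ < 1 := by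
      rw [map_inv₀]
      exact inv_lt_one_of_one_lt₀ hlt
    set y : A := ⟨x⁻¹, hinv.le⟩ with hy
    have hyu : ¬ IsUnit y := by
      intro hu
      obtain ⟨z, hz⟩ := hu.exists_right_inv
      have h1 := congrArg (A.subtype) hz
      rw [map_mul, map_one] at h1
      have h2 : (v.valuation L) (x⁻¹) * (v.valuation L) (A.subtype z) = 1 := by
        rw [← map_mul]
        have : x⁻¹ * A.subtype z = 1 := h1
        rw [this, map_one]
      have h3 : (v.valuation L) (A.subtype z) ≤ 1 := z.2
      have h4 : (v.valuation L) (x⁻¹) * (v.valuation L) (A.subtype z) ≤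
          (v.valuation L) (x⁻¹) * 1 := mul_le_mul' le_rfl h3
      rw [h2, mul_one] at h4
      exact absurd h4 (not_le.mpr hinv)
    apply hyu
    apply hloc.map_nonunit
    refine isUnit_iff_exists_inv.mpr ⟨⟨algebraMap L E x, hx⟩, ?_⟩
    apply Subtype.ext
    change algebraMap L E x⁻¹ * algebraMap L E x = 1
    rw [← map_mul, inv_mul_cancel₀ hx0, map_one]

/-- the norm at a finite place is at most one exactly on the valuation ring -/
theorem place_le_one_iff {L : Type*} [Field L] [NumberField L] (w : FinitePlace L) (z : L) :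
    w z ≤ 1 ↔ w.maximalIdeal.valuation L z ≤ 1 := by
  rw [← FinitePlace.norm_embedding_eq, FinitePlace.norm_embedding']
  have h := WithZeroMulInt.toNNReal_le_one_iff (m := w.maximalIdeal.valuation L z)
    (one_lt_absNorm_nnreal w.maximalIdeal)
  rw [← h]
  exact NNReal.coe_le_one

/-- the norm at a finite place is less than one exactly on the maximal ideal -/
theorem place_lt_one_iff {L : Type*} [Field L] [NumberField L] (w : FinitePlace L) (z : L) :
    w z < 1 ↔ w.maximalIdeal.valuation L z < 1 := by
  rw [← FinitePlace.norm_embedding_eq, FinitePlace.norm_embedding']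
  have h := WithZeroMulInt.toNNReal_lt_one_iff (m := w.maximalIdeal.valuation L z)
    (one_lt_absNorm_nnreal w.maximalIdeal)
  rw [← h]
  exact NNReal.coe_lt_one

/-- Every finite place has a place above it. -/
theorem exists_place_above {K : Type*} [Field K] [NumberField K] (L : Type*) [Field L]
    [NumberField L] [Algebra K L] (v : FinitePlace K) :
    ∃ (w : FinitePlace L) (k : ℕ), 1 ≤ k ∧ ∀ x : K, w (algebraMap K L x) = v x ^ k := by
  have hvp : v.maximalIdeal.asIdeal.IsPrime := v.maximalIdeal.isPrime
  obtain ⟨⟨Q, hQp, hQl⟩⟩ := v.maximalIdeal.asIdeal.nonempty_primesOver (S := 𝓞 L)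
  have hQ0 : Q ≠ ⊥ := Ideal.ne_bot_of_liesOver_of_ne_bot v.maximalIdeal.ne_bot Q
  set P : HeightOneSpectrum (𝓞 L) := ⟨Q, hQp, hQ0⟩ with hP
  obtain ⟨v', k, hk, h⟩ := exists_place_under (K := K) (FinitePlace.mk P)
  have h1 := liesOver_of_pow (FinitePlace.mk P) v' k hk h
  rw [FinitePlace.maximalIdeal_mk] at h1
  have h2 : v'.maximalIdeal = v.maximalIdeal := by
    apply HeightOneSpectrum.ext
    rw [h1.over, hQl.over]
  have h3 : v' = v := FinitePlace.maximalIdeal_injective h2
  subst h3
  exact ⟨FinitePlace.mk P, k, hk, h⟩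

end Pool.Agent.H.MP_0e6b5f_nt.BP
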