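import Pool.Agent.H.MP_0e6b5f_nt.BP.Main
import Pool.Agent.H.MP_0e6b5f_nt.Eng.Main

/-!
# Uniform boundedness when the number of bad places is bounded
-/

namespace Pool.Agent.H.MP_0e6b5f_nt.BP

open NumberField Module Polynomial IsDedekindDomain HeightOneSpectrum
open Pool.Agent.H.MP_0e6b5f_nt Pool.Agent.H.MP_0e6b5f_nt.Eng

/-- every rational prime is below some finite place -/
theorem exists_place_of_prime (K : Type*) [Field K] [NumberField K] {p : ℕ} (hp : p.Prime) :
    ∃ v : FinitePlace K, v (p : K) < 1 := by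
  have hpz : Prime (p : ℤ) := Nat.prime_iff_prime_int.mp hp
  have hpr : (Ideal.span {(p : ℤ)}).IsPrime :=
    (Ideal.span_singleton_prime hpz.ne_zero).mpr hpz
  obtain ⟨⟨Q, hQp, hQl⟩⟩ := (Ideal.span {(p : ℤ)}).nonempty_primesOver (S := 𝓞 K)
  have h0 : Ideal.span {(p : ℤ)} ≠ ⊥ := by
    rw [Ne, Ideal.span_singleton_eq_bot]
    exact hpz.ne_zero
  have hQ0 : Q ≠ ⊥ := Ideal.ne_bot_of_liesOver_of_ne_bot h0 Q
  refine ⟨FinitePlace.mk ⟨Q, hQp, hQ0⟩, ?_⟩
  have h1 : ((p : ℤ) : 𝓞 K) ∈ Q := by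
    have h2 : (p : ℤ) ∈ Ideal.span {(p : ℤ)} := Ideal.mem_span_singleton_self _
    have h3 := (Ideal.mem_of_liesOver Q (Ideal.span {(p : ℤ)}) (p : ℤ)).mp h2
    simpa using h3
  have h2 := (FinitePlace.norm_lt_one_iff_mem K (v := ⟨Q, hQp, hQ0⟩) ((p : ℤ) : 𝓞 K)).mpr h1
  rw [FinitePlace.mk_apply]
  simpa using h2

/-- two distinct primes are not below the same finite place -/
theorem place_prime_unique {K : Type*} [Field K] [NumberField K] (v : FinitePlace K) {p q : ℕ}
    (hp : p.Prime) (hq : q.Prime) (hvp : v (p : K) < 1) (hvq : v (q : K) < 1) : p = q := by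
  by_contra hne
  have hcop : IsCoprime (p : ℤ) (q : ℤ) :=
    Nat.isCoprime_iff_coprime.mpr ((Nat.coprime_primes hp hq).mpr hne)
  obtain ⟨a, b, hab⟩ := hcop
  have h1 : ((a : K) * (p : K) + (b : K) * (q : K)) = 1 := by
    exact_mod_cast congrArg (fun z : ℤ => (z : K)) hab
  have hint : ∀ z : ℤ, v (z : K) ≤ 1 := by
    intro z
    have := (place_le_one_iff v (z : K)).mpr (by
      have h := v.maximalIdeal.valuation_le_one (K := K) (z : 𝓞 K)
      simpa using h)
    exact this
  have h2 := FinitePlace.add_le v ((a : K) * (p : K)) ((b : K) * (q : K))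
  rw [h1, map_one, map_mul, map_mul] at h2
  have hvp0 : 0 ≤ v (p : K) := apply_nonneg v.1 _
  have hvq0 : 0 ≤ v (q : K) := apply_nonneg v.1 _
  rcases le_max_iff.mp h2 with h3 | h3
  · have := mul_le_of_le_one_left hvp0 (hint a)
    linarith
  · have := mul_le_of_le_one_left hvq0 (hint b)
    linarith

/-- Among the first `s + 1` primes one is below a finite place which is not bad, `s` being the
number of bad places. -/
theorem exists_not_bad {K : Type*} [Field K] [NumberField K] {F : K[X]} {δ : K}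
    (hfin : (badPlaces F δ).Finite) :
    ∃ (v : FinitePlace K) (p : ℕ), p.Prime ∧ p ≤ Nat.nth Nat.Prime (badPlaces F δ).ncard ∧
      v (p : K) < 1 ∧ v ∉ badPlaces F δ := by
  set s := (badPlaces F δ).ncard with hs
  by_contra hcon
  push Not at hcon
  have hpr : ∀ i : ℕ, (Nat.nth Nat.Prime i).Prime := fun i => Nat.prime_nth_prime i
  choose V hV using fun i : Fin (s + 1) => exists_place_of_prime K (hpr i)
  have hinj : Function.Injective V := by
    intro i j hij
    have h1 := place_prime_unique (V i) (hpr i) (hpr j) (hV i) (by rw [hij]; exact hV j)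
    exact Fin.ext (Nat.nth_injective Nat.infinite_setOfPred_prime h1)
  have hsub : Set.range V ⊆ badPlaces F δ := by
    rintro _ ⟨i, rfl⟩
    exact hcon (V i) _ (hpr i)
      ((Nat.nth_strictMono Nat.infinite_setOfPred_prime).monotone (by omega)) (hV i)
  have h1 := Set.ncard_le_ncard hsub hfin
  rw [← Set.image_univ, Set.ncard_image_of_injective _ hinj, Set.ncard_univ, Nat.card_fin] at h1
  omega

/-- Periods and number of the periodic points of bounded degree, from one place which is not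
bad. -/
theorem bound_of_place {K : Type*} [Field K] [NumberField K] {F : K[X]} {δ : K} {d : ℕ}
    (hd : 2 ≤ d) (hF : F.natDegree = d) (hδ : δ ≠ 0) {v : FinitePlace K}
    (hv : v ∉ badPlaces F δ) {p : ℕ} (hp : p.Prime) (hvp : v (p : K) < 1) {B M : ℕ}
    (hM : p ^ (12 * (B * finrank ℚ K)) ≤ M) :
    (perLE F δ B).Finite ∧ (perLE F δ B).ncard ≤ d ^ (M + 1) ∧
      ∀ P ∈ perLE F δ B, ∃ n, 1 ≤ n ∧ n ≤ M ∧ (henon F δ)^[n] P = P := by
  have h : ∀ P ∈ perLE F δ B, ∃ n, 1 ≤ n ∧ n ≤ M ∧ (henon F δ)^[n] P = P := by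
    intro P hP
    obtain ⟨n, hn, hnM, hPn⟩ := period_of_not_bad hd hF hδ hv hp hvp hP
    exact ⟨n, hn, hnM.trans hM, hPn⟩
  obtain ⟨h1, h2⟩ := finite_of_period hd hF M _ h
  exact ⟨h1, h2, h⟩

/-- Periods and number of the periodic points of bounded degree, from the number of bad
places. -/
theorem bound_of_number {K : Type*} [Field K] [NumberField K] {F : K[X]} {δ : K} {d : ℕ}
    (hd : 2 ≤ d) (hF : F.natDegree = d) (hδ : δ ≠ 0) {B M : ℕ}
    (hM : Nat.nth Nat.Prime (badPlaces F δ).ncard ^ (12 * (B * finrank ℚ K)) ≤ M) :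
    (perLE F δ B).Finite ∧ (perLE F δ B).ncard ≤ d ^ (M + 1) ∧
      ∀ P ∈ perLE F δ B, ∃ n, 1 ≤ n ∧ n ≤ M ∧ (henon F δ)^[n] P = P := by
  obtain ⟨C', hC'⟩ := main_bound (finrank ℚ K) d hd
  have hfin : (badPlaces F δ).Finite := (hC' K rfl F δ hF hδ).1
  obtain ⟨v, p, hp, hpp, hvp, hv⟩ := exists_not_bad hfin
  exact bound_of_place hd hF hδ hv hp hvp ((Nat.pow_le_pow_left hpp _).trans hM)

/-- The rational periodic points, as points over the algebraic closure. -/
theorem perRat_ncard_le {K : Type*} [Field K] (F : K[X]) (δ : K) (hfin : (perLE F δ 1).Finite) :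
    (perRat F δ).ncard ≤ (perLE F δ 1).ncard := by
  set φ : K × K → AlgebraicClosure K × AlgebraicClosure K :=
    Prod.map (algebraMap K (AlgebraicClosure K)) (algebraMap K (AlgebraicClosure K)) with hφ
  have hinj : Function.Injective φ :=
    (algebraMap K (AlgebraicClosure K)).injective.prodMap
      (algebraMap K (AlgebraicClosure K)).injective
  have hc : Function.Semiconj φ (hm F δ) (henon F δ) := by
    rw [henon_eq_hm]
    exact hm_map (algebraMap K (AlgebraicClosure K)) F δ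
  refine Set.ncard_le_ncard_of_injOn φ ?_ hinj.injOn hfin
  rintro P ⟨n, hn, hPn⟩
  refine ⟨⟨n, hn, ?_⟩, ?_⟩
  · have h1 : (hm F δ)^[n] P = P := hPn
    rw [Semiconj.iterate_eq hc hinj]
    exact h1
  · have h1 : IntermediateField.adjoin K ({(φ P).1, (φ P).2} : Set (AlgebraicClosure K)) = ⊥ := by
      rw [IntermediateField.adjoin_eq_bot_iff]
      rintro x (rfl | rfl)
      · exact IntermediateField.algebraMap_mem _ P.1
      · exact IntermediateField.algebraMap_mem _ P.2
    rw [h1, IntermediateField.finrank_bot]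

/-- The bound for the number of rational periodic points with the height of `δ` replaced by its
minimum with a function of the number of bad places. -/
theorem main_bound_min (D d : ℕ) (hd : 2 ≤ d) : ∃ (C : ℝ) (c : ℕ → ℝ),
    ∀ (K : Type*) [Field K] [NumberField K],
    finrank ℚ K = D → ∀ (F : K[X]) (δ : K), F.natDegree = d → δ ≠ 0 →
      (badPlaces F δ).Finite ∧ (perRat F δ).Finite ∧
      ((perRat F δ).ncard : ℝ) ≤ C * ((1 + (badPlaces F δ).ncard +
        min (Height.logHeight₁ δ) (c (badPlaces F δ).ncard)) *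
        (1 + Real.log (1 + (badPlaces F δ).ncard +
          min (Height.logHeight₁ δ) (c (badPlaces F δ).ncard)))) ^ 4 := by
  obtain ⟨C₁, hC₁⟩ := main_bound D d hd
  refine ⟨max C₁ 1, fun s => ((d ^ (Nat.nth Nat.Prime s ^ (12 * (1 * D)) + 1) : ℕ) : ℝ), ?_⟩
  intro K _ _ hK F δ hF hδ
  obtain ⟨h1, h2, h3⟩ := hC₁ K hK F δ hF hδ
  refine ⟨h1, h2, ?_⟩
  set s := (badPlaces F δ).ncard with hs
  set c : ℝ := ((d ^ (Nat.nth Nat.Prime s ^ (12 * (1 * D)) + 1) : ℕ) : ℝ) with hc
  have hc0 : 0 ≤ c := Nat.cast_nonneg _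
  have hs0 : (0 : ℝ) ≤ s := Nat.cast_nonneg s
  have hh0 : 0 ≤ Height.logHeight₁ δ := Height.zero_le_logHeight₁ δ
  rcases le_total (Height.logHeight₁ δ) c with h | h
  · rw [min_eq_left h]
    refine h3.trans (mul_le_mul_of_nonneg_right (le_max_left _ _) ?_)
    have hlog : 0 ≤ Real.log (1 + s + Height.logHeight₁ δ) := Real.log_nonneg (by linarith)
    positivity
  · rw [min_eq_right h]
    set Y : ℝ := 1 + s + c with hY
    have hY1 : 1 ≤ Y := by linarith
    have hlog : 0 ≤ Real.log Y := Real.log_nonneg hY1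
    obtain ⟨h4, h5, _⟩ := bound_of_number (B := 1) hd hF hδ (le_refl _)
    have h6 : ((perRat F δ).ncard : ℝ) ≤ c := by
      have h7 := (perRat_ncard_le F δ h4).trans h5
      rw [hK] at h7
      rw [hc]
      exact_mod_cast h7
    have h8 : Y ≤ Y * (1 + Real.log Y) := by nlinarith
    have h9 : 1 ≤ Y * (1 + Real.log Y) := hY1.trans h8
    have h10 : Y * (1 + Real.log Y) ≤ (Y * (1 + Real.log Y)) ^ 4 :=
      le_self_pow₀ h9 (by norm_num)
    calc ((perRat F δ).ncard : ℝ) ≤ c := h6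
      _ ≤ Y := by linarith
      _ ≤ (Y * (1 + Real.log Y)) ^ 4 := h8.trans h10
      _ = 1 * (Y * (1 + Real.log Y)) ^ 4 := (one_mul _).symm
      _ ≤ max C₁ 1 * (Y * (1 + Real.log Y)) ^ 4 :=
          mul_le_mul_of_nonneg_right (le_max_right _ _) (by positivity)

end Pool.Agent.H.MP_0e6b5f_nt.BP
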