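import Pool.Agent.H.MP_0e6b5f_nt.LocalPlace

/-!
# Fixed points that are not far apart imply the good reduction condition
-/

namespace Pool.Agent.H.MP_0e6b5f_nt.BP

open Polynomial
open Pool.Agent.H.MP_0e6b5f_nt

/-- coefficients of a product of linear factors with small roots -/
theorem coeff_prod_le {E : Type*} [Field E] {Γ₀ : Type*} [LinearOrderedCommGroupWithZero Γ₀]
    (w : Valuation E Γ₀) (ρ : Γ₀) (s : Multiset E) (hs : ∀ e ∈ s, w e ≤ ρ) (j : ℕ) :
    w ((s.map (fun e => X - C e)).prod.coeff j) * ρ ^ j ≤ ρ ^ Multiset.card s := by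
  induction s using Multiset.induction_on generalizing j with
  | empty =>
    rcases Nat.eq_zero_or_pos j with rfl | hj
    · simp
    · simp only [Multiset.map_zero, Multiset.prod_zero, Multiset.card_zero, pow_zero]
      rw [coeff_one, if_neg hj.ne', map_zero, zero_mul]
      exact zero_le
  | cons a s ih =>
    have ha : w a ≤ ρ := hs a (Multiset.mem_cons_self a s)
    have ih' := ih (fun e he => hs e (Multiset.mem_cons_of_mem he))
    rw [Multiset.map_cons, Multiset.prod_cons, Multiset.card_cons]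
    set Q := (s.map (fun e => X - C e)).prod with hQ
    have h1 : w ((X * Q).coeff j) * ρ ^ j ≤ ρ ^ (Multiset.card s + 1) := by
      rcases Nat.eq_zero_or_pos j with rfl | hj
      · rw [mul_coeff_zero, coeff_X_zero, zero_mul, map_zero, zero_mul]
        exact zero_le
      · obtain ⟨i, rfl⟩ : ∃ i, j = i + 1 := ⟨j - 1, by omega⟩
        rw [coeff_X_mul, pow_succ, ← mul_assoc, pow_succ]
        exact mul_le_mul' (ih' i) le_rfl
    have h2 : w ((C a * Q).coeff j) * ρ ^ j ≤ ρ ^ (Multiset.card s + 1) := by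
      rw [coeff_C_mul, map_mul, mul_assoc, pow_succ']
      exact mul_le_mul' ha (ih' j)
    rw [sub_mul, coeff_sub]
    rcases le_total (w ((X * Q).coeff j)) (w ((C a * Q).coeff j)) with h | h
    · exact (mul_le_mul' ((w.map_sub _ _).trans (max_le h le_rfl)) le_rfl).trans h2
    · exact (mul_le_mul' ((w.map_sub _ _).trans (max_le le_rfl h)) le_rfl).trans h1

/-- If no two fixed points are far apart, the good reduction condition holds with one of them as
the centre. -/
theorem goodCond_of_fixed {E : Type*} [Field E] [IsAlgClosed E] {Γ₀ : Type*}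
    [LinearOrderedCommGroupWithZero Γ₀] (w : Valuation E Γ₀) (F : E[X]) (δ : E)
    {d : ℕ} (hd : 2 ≤ d) (hF : F.natDegree = d)
    (h : ∀ x y : E, F.eval x - δ * x = x → F.eval y - δ * y = y →
      w F.leadingCoeff * w (x - y) ^ (d - 1) ≤ max 1 (w δ)) :
    ∃ (b : E) (ρ : Γ₀),
      GoodCond w (F.comp (X + C b) - C ((1 + δ) * b)) d (max 1 (w δ)) ρ := by
  set Δ := max 1 (w δ) with hΔ
  have hΔ0 : 0 < Δ := lt_of_lt_of_le zero_lt_one (le_max_left _ _)
  obtain ⟨m, hm⟩ : ∃ m : E, w m = Δ := by
    rcases le_total (w δ) 1 with h | h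
    · exact ⟨1, by rw [map_one, hΔ, max_eq_left h]⟩
    · exact ⟨δ, by rw [hΔ, max_eq_right h]⟩
  have hlc : F.leadingCoeff ≠ 0 := by
    rw [Ne, leadingCoeff_eq_zero]
    intro h; rw [h, natDegree_zero] at hF; omega
  have hlc0 : 0 < w F.leadingCoeff := zero_lt_iff.mpr ((map_ne_zero w).mpr hlc)
  obtain ⟨lam, hlam⟩ := IsAlgClosed.exists_pow_nat_eq (m / F.leadingCoeff) (n := d - 1) (by omega)
  set ρ := w lam with hρ
  have hρd : ρ ^ (d - 1) * w F.leadingCoeff = Δ := by
    rw [hρ, ← map_pow, hlam, map_div₀, hm, div_mul_cancel₀ _ hlc0.ne']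
  have hρ0 : 0 < ρ := by
    rw [zero_lt_iff]
    intro h
    rw [h, zero_pow (by omega), zero_mul] at hρd
    exact hΔ0.ne hρd
  -- the fixed point polynomial
  set G₀ : E[X] := F - C (1 + δ) * X with hG₀
  have hlow : (C (1 + δ) * X : E[X]).natDegree < F.natDegree := by
    refine lt_of_le_of_lt (natDegree_C_mul_le _ _) ?_
    rw [natDegree_X, hF]; omega
  have hG₀d : G₀.natDegree = d := by
    rw [hG₀, natDegree_sub_eq_left_of_natDegree_lt hlow, hF]
  have hG₀l : G₀.leadingCoeff = F.leadingCoeff := by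
    rw [leadingCoeff, hG₀d, hG₀, coeff_sub, leadingCoeff, hF,
      coeff_eq_zero_of_natDegree_lt (p := C (1 + δ) * X) (by rw [← hF]; exact hlow), sub_zero]
  have hsplit : G₀ = C F.leadingCoeff * (G₀.roots.map (fun e => X - C e)).prod := by
    have := (IsAlgClosed.splits G₀).eq_prod_roots
    rwa [hG₀l] at this
  have hcard : Multiset.card G₀.roots = d := by
    rw [← hG₀d]
    exact (IsAlgClosed.splits G₀).natDegree_eq_card_roots.symm
  have hfix : ∀ x ∈ G₀.roots, F.eval x - δ * x = x := by
    intro x hx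
    have h1 : G₀.eval x = 0 := (isRoot_of_mem_roots hx)
    rw [hG₀, eval_sub, eval_mul, eval_C, eval_X] at h1
    linear_combination h1
  obtain ⟨b, hb⟩ : ∃ b, b ∈ G₀.roots := by
    apply Multiset.card_pos_iff_exists_mem.mp
    rw [hcard]; omega
  obtain ⟨s, hs⟩ := Multiset.exists_cons_of_mem hb
  have hscard : Multiset.card s = d - 1 := by
    rw [hs, Multiset.card_cons] at hcard; omega
  have hes : ∀ e ∈ s, w (e - b) ≤ ρ := by
    intro e he
    have h1 := h e b (hfix e (by rw [hs]; exact Multiset.mem_cons_of_mem he)) (hfix b hb)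
    rw [← hρd, mul_comm] at h1
    exact (pow_le_pow_iff_left₀ zero_le zero_le (by omega : d - 1 ≠ 0)).mp
      (le_of_mul_le_mul_right h1 hlc0)
  set R : E[X] := ((s.map (fun e => e - b)).map (fun e => X - C e)).prod with hR
  have hGeq : F.comp (X + C b) - C ((1 + δ) * b) =
      C (1 + δ) * X + C F.leadingCoeff * (X * R) := by
    have h1 : F = C (1 + δ) * X + C F.leadingCoeff * ((X - C b) *
        (s.map (fun e => X - C e)).prod) := by
      have h3 : G₀ = C F.leadingCoeff * ((X - C b) * (s.map (fun e => X - C e)).prod) := by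
        conv_lhs => rw [hsplit, hs, Multiset.map_cons, Multiset.prod_cons]
      rw [← h3, hG₀]
      ring
    have h2 : ((s.map (fun e => X - C e)).prod).comp (X + C b) = R := by
      rw [hR, Polynomial.multiset_prod_comp, Multiset.map_map, Multiset.map_map]
      congr 1
      refine Multiset.map_congr rfl fun e _ => ?_
      simp only [Function.comp_apply, sub_comp, X_comp, C_comp, C_sub]
      ring
    conv_lhs => rw [h1]
    rw [add_comp, mul_comp, mul_comp, mul_comp, C_comp, C_comp, X_comp, h2, sub_comp, X_comp,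
      C_comp, C_mul]
    ring
  have hnd : (F.comp (X + C b)).natDegree = d := by
    rw [natDegree_comp, natDegree_X_add_C, mul_one, hF]
  have hlead : (F.comp (X + C b)).coeff d = F.leadingCoeff := by
    have h1 : (F.comp (X + C b)).leadingCoeff = F.leadingCoeff := by
      rw [leadingCoeff_comp (by rw [natDegree_X_add_C]; exact one_ne_zero),
        leadingCoeff_X_add_C, one_pow, mul_one]
    rw [← h1, leadingCoeff, hnd]
  refine ⟨b, ρ, ?_, hρ0, ?_, ?_⟩
  · refine (natDegree_sub_le _ _).trans ?_
    rw [hnd, natDegree_C]; simp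
  · intro i
    rw [hGeq, coeff_add]
    have h1 : w ((C (1 + δ) * X : E[X]).coeff i) * ρ ^ i ≤ Δ * ρ := by
      rw [coeff_C_mul, coeff_X]
      split_ifs with hi
      · rw [← hi, mul_one, pow_one]
        refine mul_le_mul' ?_ le_rfl
        refine (w.map_add _ _).trans ?_
        rw [map_one]
      · rw [mul_zero, map_zero, zero_mul]
        exact zero_le
    have h2 : w ((C F.leadingCoeff * (X * R)).coeff i) * ρ ^ i ≤ Δ * ρ := by
      rcases Nat.eq_zero_or_pos i with rfl | hi
      · rw [coeff_C_mul, mul_coeff_zero, coeff_X_zero, zero_mul, mul_zero, map_zero, zero_mul]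
        exact zero_le
      · obtain ⟨k, rfl⟩ : ∃ k, i = k + 1 := ⟨i - 1, by omega⟩
        rw [coeff_C_mul, coeff_X_mul, map_mul, pow_succ, ← mul_assoc]
        refine mul_le_mul' ?_ le_rfl
        rw [← hρd, mul_assoc, mul_comm]
        refine mul_le_mul' ?_ le_rfl
        have h3 := coeff_prod_le w ρ (s.map (fun e => e - b)) (by
          intro e he
          obtain ⟨e', he', rfl⟩ := Multiset.mem_map.mp he
          exact hes e' he') k
        rwa [Multiset.card_map, hscard] at h3
    rcases le_total (w ((C (1 + δ) * X : E[X]).coeff i))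
      (w ((C F.leadingCoeff * (X * R)).coeff i)) with h | h
    · exact (mul_le_mul' ((w.map_add _ _).trans (max_le h le_rfl)) le_rfl).trans h2
    · exact (mul_le_mul' ((w.map_add _ _).trans (max_le le_rfl h)) le_rfl).trans h1
  · have hGd : (F.comp (X + C b) - C ((1 + δ) * b)).coeff d = F.leadingCoeff := by
      obtain ⟨e, rfl⟩ : ∃ e, d = e + 1 := ⟨d - 1, by omega⟩
      rw [coeff_sub, coeff_C_succ, sub_zero, hlead]
    rw [hGd]
    have e1 : ρ ^ d = ρ ^ (d - 1) * ρ := by rw [← pow_succ]; congr 1; omega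
    rw [e1, ← mul_assoc, mul_comm (w F.leadingCoeff), hρd]

end Pool.Agent.H.MP_0e6b5f_nt.BP
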