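import Pool.Agent.H.MP_0e6b5f_nt.LocalPlace

/-!
# The local period bound, with an explicit polynomial bound for the period
-/

namespace Pool.Agent.H.MP_0e6b5f_nt.BP

open Polynomial Function Module Matrix
open Pool.Agent.H.MP_0e6b5f_nt

/-- `P` is periodic under `f` with a period at most `M`. -/
def PerLe {α : Type*} (f : α → α) (P : α) (M : ℕ) : Prop :=
  ∃ k, 0 < k ∧ k ≤ M ∧ f^[k] P = P

/-- In a finite monoid with at most `c` elements some `x ^ r` with `1 ≤ r ≤ c` is idempotent. -/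
theorem exists_idem_pow {G : Type*} [Monoid G] [Finite G] {c : ℕ} (hc : Nat.card G ≤ c)
    (x : G) : ∃ r, 0 < r ∧ r ≤ c ∧ x ^ r * x ^ r = x ^ r := by
  classical
  have := Fintype.ofFinite G
  have hcard : Fintype.card G < Fintype.card (Fin (c + 1)) := by
    rw [Fintype.card_fin, ← Nat.card_eq_fintype_card]; omega
  obtain ⟨i, j, hij, hx⟩ := Fintype.exists_ne_map_eq_of_card_lt (fun k : Fin (c+1) => x ^ (k : ℕ))
    hcard
  wlog hlt : i < j generalizing i j
  · exact this j i hij.symm hx.symm (lt_of_le_of_ne (not_lt.mp hlt) hij.symm)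
  have hlt' : (i : ℕ) < j := hlt
  set t := (j : ℕ) - i with ht
  have ht0 : 0 < t := by omega
  have key : ∀ k m : ℕ, x ^ ((i : ℕ) + k + m * t) = x ^ ((i : ℕ) + k) := by
    intro k m
    induction m with
    | zero => simp
    | succ m ih =>
      have e1 : (i : ℕ) + k + (m + 1) * t = (j : ℕ) + (k + m * t) := by
        have : (j : ℕ) = i + t := by omega
        rw [this]; ring
      have e2 : (i : ℕ) + k + m * t = (i : ℕ) + (k + m * t) := by ring
      rw [e1, pow_add]
      have hx' : x ^ (j : ℕ) = x ^ (i : ℕ) := hx.symm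
      rw [hx', ← pow_add, ← e2, ih]
  set m := (i : ℕ) / t + 1 with hm
  have h1 : (i : ℕ) < m * t := by
    rw [hm]
    have := Nat.lt_div_mul_add (a := (i : ℕ)) ht0
    calc (i : ℕ) < (i : ℕ) / t * t + t := this
      _ = ((i : ℕ) / t + 1) * t := by ring
  have h2 : m * t ≤ (j : ℕ) := by
    have h3 : (i : ℕ) / t * t ≤ i := Nat.div_mul_le_self _ _
    calc m * t = (i : ℕ) / t * t + t := by rw [hm]; ring
      _ ≤ i + t := by omega
      _ = j := by omega
  refine ⟨m * t, by positivity, by have := j.2; omega, ?_⟩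
  rw [← pow_add]
  have e3 := key (m * t - i) m
  have e4 : (i : ℕ) + (m * t - i) = m * t := by omega
  rwa [e4] at e3

section Main

variable {R : Type*} [CommRing R] [IsDomain R] [ValuationRing R]
variable {Φ : (Fin 2 → R) → (Fin 2 → R)} {D : (Fin 2 → R) → Matrix (Fin 2) (Fin 2) R}

/-- **Explicit uniform period bound.** -/
theorem iterate_small_eq {p : ℕ} (hp : p.Prime) (hp0 : (p : R) ≠ 0) (hpu : ¬ IsUnit (p : R))
    [Finite (R ⧸ Ideal.span {(p : R) ^ 2})] {q : ℕ}
    (hq : Nat.card (R ⧸ Ideal.span {(p : R) ^ 2}) ≤ q) (h : IsTaylor Φ D) {P : Fin 2 → R} {n : ℕ}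
    (hn : 0 < n) (hP : Φ^[n] P = P) : PerLe Φ P (q ^ 6) := by
  classical
  obtain ⟨m, hm0, hmq, hmc⟩ := exists_small_period (c := (p : R) ^ 2) hq h hn hP
  -- step one : `Ψ = Φ^[m]`
  set Ψ := Φ^[m] with hΨ
  have hΨP : Cong ((p : R) ^ 2) P (Ψ P) := hmc
  have hTΨ : IsTaylor Ψ (iterD Φ D m) := h.iterate _
  set DΨ := iterD Φ D m with hDΨ
  have hfinmat : Finite (Matrix (Fin 2) (Fin 2) (R ⧸ Ideal.span {(p : R) ^ 2})) := by
    unfold Matrix; infer_instance
  have hcard : Nat.card (Matrix (Fin 2) (Fin 2) (R ⧸ Ideal.span {(p : R) ^ 2})) ≤ q ^ 4 := by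
    have := Fintype.ofFinite (R ⧸ Ideal.span {(p : R) ^ 2})
    unfold Matrix
    rw [Nat.card_eq_fintype_card, Fintype.card_fun, Fintype.card_fun, Fintype.card_fin,
      ← Nat.card_eq_fintype_card, ← pow_mul]
    exact Nat.pow_le_pow_left hq 4
  -- step two : `Θ = Ψ^[r]`
  obtain ⟨r, hr0, hrq, hr⟩ := exists_idem_pow hcard
    ((Ideal.Quotient.mk (Ideal.span {(p : R) ^ 2})).mapMatrix (DΨ P))
  set Θ := Ψ^[r] with hΘ
  have hTΘ : IsTaylor Θ (iterD Ψ DΨ r) := hTΨ.iterate _
  have hΘP : Cong ((p : R) ^ 2) P (Θ P) := hTΨ.cong_iterate hΨP _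
  set DΘ := iterD Ψ DΨ r with hDΘ
  have hidem : (Ideal.Quotient.mk (Ideal.span {(p : R) ^ 2})).mapMatrix (DΘ P * DΘ P) =
      (Ideal.Quotient.mk (Ideal.span {(p : R) ^ 2})).mapMatrix (DΘ P) := by
    rw [map_mul, hDΘ, iterD_cong hTΨ hΨP]
    exact hr
  -- `P` is periodic for `Θ`
  have hbig : Φ^[m * r] = Θ := by
    rw [hΘ, hΨ, ← Function.iterate_mul]
  refine ⟨m * r, Nat.mul_pos hm0 hr0, ?_, ?_⟩
  · calc m * r ≤ q ^ 2 * q ^ 4 := Nat.mul_le_mul hmq hrq
      _ = q ^ 6 := by ring
  rw [hbig]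
  have hΘper : Θ^[n] P = P := by
    rw [← hbig, ← Function.iterate_mul, mul_comm, Function.iterate_mul]
    exact Function.iterate_fixed hP _
  -- minimal period
  by_contra hne
  have hper : P ∈ Function.periodicPts Θ := ⟨n, hn, hΘper⟩
  set n' := Function.minimalPeriod Θ P with hn'
  have hn'pos : 0 < n' := Function.minimalPeriod_pos_of_mem_periodicPts hper
  have hn'1 : n' ≠ 1 := by
    intro h1
    exact hne (Function.minimalPeriod_eq_one_iff_isFixedPt.mp (hn'.symm.trans h1))
  obtain ⟨l, hl, hln⟩ := Nat.exists_prime_and_dvd hn'1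
  obtain ⟨k, hk⟩ := hln
  have hk0 : 0 < k := by
    rcases Nat.eq_zero_or_pos k with h0 | h0
    · rw [h0, mul_zero] at hk; omega
    · exact h0
  have hkn : k < n' := by
    rw [hk]; exact lt_mul_of_one_lt_left hk0 hl.one_lt
  have hTΞ : IsTaylor (Θ^[k]) (iterD Θ DΘ k) := hTΘ.iterate k
  have hΞP : Cong ((p : R) ^ 2) P (Θ^[k] P) := hTΘ.cong_iterate hΘP k
  have hΞl : (Θ^[k])^[l] P = P := by
    rw [← Function.iterate_mul, mul_comm, ← hk]
    exact Function.iterate_minimalPeriod
  have hEΞ : (Ideal.Quotient.mk (Ideal.span {(p : R) ^ 2})).mapMatrix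
      (iterD Θ DΘ k P * iterD Θ DΘ k P) =
      (Ideal.Quotient.mk (Ideal.span {(p : R) ^ 2})).mapMatrix (iterD Θ DΘ k P) := by
    rw [map_mul, iterD_cong hTΘ hΘP]
    rw [map_mul] at hidem
    have hid : IsIdempotentElem ((Ideal.Quotient.mk (Ideal.span {(p : R) ^ 2})).mapMatrix (DΘ P)) :=
      hidem
    exact (hid.pow k)
  have hfix : Θ^[k] P = P :=
    no_prime_period hp hp0 hpu hTΞ hΞP (mapMatrix_eq_iff.mp hEΞ) hl hΞl
  exact Function.not_isPeriodicPt_of_pos_of_lt_minimalPeriod hk0.ne' hkn hfix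

end Main

section Vec

variable {R : Type*} [CommRing R]

theorem hm_small [IsDomain R] [ValuationRing R] {p : ℕ} (hp : p.Prime)
    (hp0 : (p : R) ≠ 0) (hpu : ¬ IsUnit (p : R))
    [Finite (R ⧸ Ideal.span {(p : R) ^ 2})] {q : ℕ}
    (hq : Nat.card (R ⧸ Ideal.span {(p : R) ^ 2}) ≤ q) (F : R[X]) (δ : R) (P : R × R) {n : ℕ}
    (hn : 0 < n) (hP : (hm F δ)^[n] P = P) : PerLe (hm F δ) P (q ^ 6) := by
  have h1 : (hv F δ)^[n] ![P.1, P.2] = ![P.1, P.2] := by rw [hv_iterate, hP]
  obtain ⟨k, hk0, hkq, hk⟩ := iterate_small_eq hp hp0 hpu hq (hv_isTaylor F δ) hn h1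
  rw [hv_iterate, vec_eq_iff] at hk
  exact ⟨k, hk0, hkq, hk⟩

end Vec

section Int

variable {L : Type*} [Field L] {Γ₀ : Type*} [LinearOrderedCommGroupWithZero Γ₀]

theorem small_of_integral (v : Valuation L Γ₀) {p : ℕ} (hp : p.Prime) (hp0 : (p : L) ≠ 0)
    (hpv : v (p : L) < 1)
    [Finite (v.valuationSubring ⧸ Ideal.span {(p : v.valuationSubring) ^ 2})] {q : ℕ}
    (hq : Nat.card (v.valuationSubring ⧸ Ideal.span {(p : v.valuationSubring) ^ 2}) ≤ q)
    (F : L[X]) (δ : L) (hδ : v δ ≤ 1)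
    (P : L × L) {n : ℕ} (hn : 0 < n) (hP : (hm F δ)^[n] P = P)
    (c h : L) (hh : h ≠ 0) (hx : ∀ k, v (((hm F δ)^[k] P).1 - c) ≤ v h)
    (hF : ∀ i, v ((F.comp (C h * X + C c)).coeff (i + 1)) ≤ v h) :
    PerLe (hm F δ) P (q ^ 6) := by
  set x : ℕ → L := fun k => ((hm F δ)^[k] P).1 with hxdef
  have hxP : ∀ k, (hm F δ)^[k] P = (x k, x (k + 1)) := fun k => hm_seq F δ P k
  have hrec : ∀ k, F.eval (x (k + 1)) = x (k + 2) + δ * x k := by
    intro k
    have := hm_rec F δ P k
    simp only [hxdef]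
    rw [this]; ring
  have hvh : 0 < v h := zero_lt_iff.mpr ((map_ne_zero v).mpr hh)
  -- the new polynomial
  set G : L[X] := C h⁻¹ * (F.comp (C h * X + C c) - C (c + δ * c)) with hG
  have hGeval : ∀ y, G.eval y = h⁻¹ * (F.eval (h * y + c) - (c + δ * c)) := by
    intro y
    simp [hG, eval_comp]
  set u : ℕ → L := fun k => (x k - c) / h with hu
  have hu1 : ∀ k, v (u k) ≤ 1 := by
    intro k
    simp only [hu, map_div₀]
    exact div_le_one_of_le₀ (hx k) zero_le
  have hxu : ∀ k, x k = h * u k + c := by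
    intro k; simp only [hu]; field_simp; ring
  have hurec : G.eval (u 1) = u 2 + δ * u 0 := by
    have h0 := hrec 0
    simp only [zero_add] at h0
    rw [hGeval, ← hxu 1, h0]
    simp only [hu]
    field_simp
    ring
  have hGint1 : ∀ i, v (G.coeff (i + 1)) ≤ 1 := by
    intro i
    rw [hG, coeff_C_mul, coeff_sub, coeff_C_succ, sub_zero, map_mul, map_inv₀]
    rw [inv_mul_le_iff₀ hvh, mul_one]
    exact hF i
  have hGint0 : v (G.coeff 0) ≤ 1 := by
    have e : G.coeff 0 = (u 2 + δ * u 0) - (G.divX.eval (u 1)) * u 1 := by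
      rw [← hurec]
      have hdec := congrArg (Polynomial.eval (u 1)) G.divX_mul_X_add
      simp only [eval_add, eval_mul, eval_X, eval_C] at hdec
      rw [← hdec]; ring
    rw [e]
    refine (v.map_sub _ _).trans (max_le ?_ ?_)
    · refine (v.map_add _ _).trans (max_le (hu1 _) ?_)
      rw [map_mul]; exact mul_le_one' hδ (hu1 0)
    · rw [map_mul]
      refine mul_le_one' ?_ (hu1 1)
      rw [eval_eq_sum_range]
      refine v.map_sum_le fun i _ => ?_
      rw [coeff_divX, map_mul, map_pow]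
      exact mul_le_one' (hGint1 i) (pow_le_one' (hu1 1) i)
  have hGint : ∀ i, v (G.coeff i) ≤ 1 := by
    intro i; cases i with
    | zero => exact hGint0
    | succ i => exact hGint1 i
  have hlift : G ∈ lifts (v.valuationSubring.subtype) := by
    rw [lifts_iff_coeff_lifts]
    intro i
    exact ⟨⟨G.coeff i, hGint i⟩, rfl⟩
  obtain ⟨G', hG'⟩ := hlift
  have hG'' : G'.map v.valuationSubring.subtype = G := hG'
  set Q : v.valuationSubring × v.valuationSubring := (⟨u 0, hu1 0⟩, ⟨u 1, hu1 1⟩) with hQ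
  set δ' : v.valuationSubring := ⟨δ, hδ⟩ with hδ'
  have hinj : Injective (Prod.map (v.valuationSubring.subtype) (v.valuationSubring.subtype)) :=
    Subtype.val_injective.prodMap Subtype.val_injective
  have hc1 := hm_map v.valuationSubring.subtype G' δ'
  rw [hG''] at hc1
  have hδ'' : v.valuationSubring.subtype δ' = δ := rfl
  rw [hδ''] at hc1
  have hc2 : Semiconj (fun P : L × L => (h * P.1 + c, h * P.2 + c)) (hm G δ) (hm F δ) := by
    intro P
    simp only [hm, hGeval, Prod.mk.injEq, true_and]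
    field_simp
    ring
  have hinj2 : Injective (fun P : L × L => (h * P.1 + c, h * P.2 + c)) := by
    intro P Q hPQ
    simp only [Prod.mk.injEq, add_left_inj] at hPQ
    exact Prod.ext (mul_left_cancel₀ hh hPQ.1) (mul_left_cancel₀ hh hPQ.2)
  have hPQ : P = (fun P : L × L => (h * P.1 + c, h * P.2 + c))
      (Prod.map (v.valuationSubring.subtype) (v.valuationSubring.subtype) Q) := by
    have h0 := hxP 0
    simp only [iterate_zero, id_eq, zero_add] at h0
    rw [h0]
    simp only [Q, Prod.map, ValuationSubring.subtype_apply, ← hxu]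
  have htrans : ∀ k, (hm F δ)^[k] P = P ↔ (hm G' δ')^[k] Q = Q := by
    intro k
    rw [hPQ, Semiconj.iterate_eq hc2 hinj2, Semiconj.iterate_eq hc1 hinj]
  have hp0' : (p : v.valuationSubring) ≠ 0 := by
    intro h
    apply hp0
    have := congrArg (v.valuationSubring.subtype) h
    simpa using this
  have hpu : ¬ IsUnit (p : v.valuationSubring) := by
    intro h
    obtain ⟨w, hw⟩ := h.exists_right_inv
    have h1 := congrArg (v.valuationSubring.subtype) hw
    rw [map_mul, map_natCast, map_one] at h1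
    have h2 : v (p : L) * v (v.valuationSubring.subtype w) = 1 := by
      rw [← map_mul, h1, map_one]
    have h3 : v (v.valuationSubring.subtype w) ≤ 1 := w.2
    have h4 : v (p : L) * v (v.valuationSubring.subtype w) ≤ v (p : L) * 1 :=
      mul_le_mul' le_rfl h3
    rw [h2, mul_one] at h4
    exact absurd h4 (not_le.mpr hpv)
  obtain ⟨k, hk0, hkq, hk⟩ := hm_small hp hp0' hpu hq G' δ' Q hn ((htrans n).mp hP)
  exact ⟨k, hk0, hkq, (htrans k).mpr hk⟩

/-- period bound from the local expansions along the orbit only -/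
theorem orbit_small (v : Valuation L Γ₀) {p : ℕ} (hp : p.Prime) (hp0 : (p : L) ≠ 0)
    (hpv : v (p : L) < 1)
    [Finite (v.valuationSubring ⧸ Ideal.span {(p : v.valuationSubring) ^ 2})] {q : ℕ}
    (hq : Nat.card (v.valuationSubring ⧸ Ideal.span {(p : v.valuationSubring) ^ 2}) ≤ q)
    (F : L[X]) (δ : L) (hδ : v δ ≤ 1)
    (P : L × L) {n : ℕ} (hn : 0 < n) (hP : (hm F δ)^[n] P = P)
    (hM : ∀ i j l : ℕ, v ((F.comp (C (((hm F δ)^[i] P).1 - ((hm F δ)^[j] P).1) * X +
      C (((hm F δ)^[j] P).1))).coeff (l + 1)) ≤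
        v (((hm F δ)^[i] P).1 - ((hm F δ)^[j] P).1)) :
    PerLe (hm F δ) P (q ^ 6) := by
  set x : ℕ → L := fun k => ((hm F δ)^[k] P).1 with hx
  have hxP : ∀ k, (hm F δ)^[k] P = (x k, x (k + 1)) := fun k => hm_seq F δ P k
  have hper : ∀ k, x (k + n) = x k := fun k => by
    simp only [hx]; rw [hm_periodic hP]
  -- the diameter of the orbit
  have hdiam : ∃ i j, ∀ k l, v (x k - x l) ≤ v (x (i + 1) - x (j + 1)) := by
    have h1 : ∀ l, ∃ i, ∀ k, v (x k - x l) ≤ v (x (i + 1) - x l) := fun l =>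
      exists_max_periodic (fun k => v (x k - x l)) hn (fun k => by simp only [hper k])
    choose i hi using h1
    obtain ⟨j, hj'⟩ := exists_max_periodic (fun l => v (x (i 0 + 1) - x l)) hn
      (fun l => by simp only [hper l])
    have hj : ∀ l, v (x (i 0 + 1) - x l) ≤ v (x (i 0 + 1) - x (j + 1)) := hj'
    refine ⟨i 0, j, fun k l => ?_⟩
    have h2 : ∀ k, v (x k - x 0) ≤ v (x (i 0 + 1) - x (j + 1)) := fun k =>
      (hi 0 k).trans (hj 0)
    have e : x k - x l = (x k - x 0) - (x l - x 0) := by ring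
    rw [e]
    exact (v.map_sub _ _).trans (max_le (h2 k) (h2 l))
  obtain ⟨i, j, hij⟩ := hdiam
  set h := x (i + 1) - x (j + 1) with hh
  by_cases h0 : h = 0
  · have hconst : ∀ k l, x k = x l := by
      intro k l
      have := hij k l
      rw [h0, map_zero] at this
      exact sub_eq_zero.mp ((map_eq_zero v).mp (le_antisymm this zero_le))
    have hfP : hm F δ P = P := by
      have e0 := hxP 0
      have e1 := hxP 1
      simp only [iterate_zero, id_eq, zero_add] at e0
      rw [iterate_one] at e1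
      rw [e1]
      conv_rhs => rw [e0]
      rw [hconst 1 0, hconst (1 + 1) 0]
    have hq1 : 0 < q := lt_of_lt_of_le Nat.card_pos hq
    exact ⟨1, one_pos, Nat.one_le_pow _ _ hq1, by rw [iterate_one]; exact hfP⟩
  · exact small_of_integral v hp hp0 hpv hq F δ hδ P hn hP (x (j + 1)) h h0
      (fun k => hij k (j + 1)) (fun l => hM (i + 1) (j + 1) l)

theorem good_small_aux {E : Type*} [Field E] (w : Valuation E Γ₀) (ι : L →+* E)
    {p : ℕ} (hp : p.Prime) (hp0 : (p : L) ≠ 0) (hpv : (w.comap ι) (p : L) < 1)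
    [Finite ((w.comap ι).valuationSubring ⧸
      Ideal.span {(p : (w.comap ι).valuationSubring) ^ 2})] {q : ℕ}
    (hq : Nat.card ((w.comap ι).valuationSubring ⧸
      Ideal.span {(p : (w.comap ι).valuationSubring) ^ 2}) ≤ q)
    (F : L[X]) (δ : L) (hδ : (w.comap ι) δ ≤ 1) (b : E) {d : ℕ} (hd : 2 ≤ d) (ρ : Γ₀)
    (hG : GoodCond w ((F.map ι).comp (X + C b) - C ((1 + ι δ) * b)) d 1 ρ)
    (P : L × L) {n : ℕ} (hn : 0 < n) (hP : (hm F δ)^[n] P = P) :
    PerLe (hm F δ) P (q ^ 6) := by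
  obtain ⟨hdeg, hρ, hcoef, htop⟩ := hG
  set G : E[X] := (F.map ι).comp (X + C b) - C ((1 + ι δ) * b) with hGdef
  set x : ℕ → L := fun k => ((hm F δ)^[k] P).1 with hx
  have hrec : ∀ k, F.eval (x (k + 1)) = x (k + 2) + δ * x k := by
    intro k
    have := hm_rec F δ P k
    simp only [hx]
    rw [this]; ring
  have hper : ∀ k, x (k + n) = x k := fun k => by
    simp only [hx]; rw [hm_periodic hP]
  set u : ℕ → E := fun k => ι (x k) - b with hu
  have hurec : ∀ k, G.eval (u (k + 1)) = u (k + 2) + ι δ * u k := by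
    intro k
    have e : G.eval (u (k + 1)) = ι (F.eval (x (k + 1))) - (1 + ι δ) * b := by
      simp only [hGdef, hu, eval_sub, eval_comp, eval_add, eval_X, eval_C, sub_add_cancel]
      rw [eval_map_apply]
    rw [e, hrec, map_add, map_mul]
    simp only [hu]; ring
  have hδ' : w (ι δ) ≤ 1 := hδ
  -- the orbit stays in the disc of radius `ρ`
  have hsmall : ∀ k, w (u k) ≤ ρ := by
    obtain ⟨m, hm'⟩ := exists_max_periodic (fun k => w (u k)) hn
      (fun k => by simp only [hu, hper k])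
    have hm1 : ∀ k, w (u k) ≤ w (u (m + 1)) := hm'
    intro k
    refine (hm1 k).trans ?_
    by_contra hlt
    push Not at hlt
    set R := w (u (m + 1)) with hR
    have hR0 : 0 < R := lt_of_le_of_lt zero_le hlt
    have h1 : w (G.eval (u (m + 1))) ≤ R := by
      rw [hurec]
      refine (w.map_add _ _).trans (max_le (hm1 _) ?_)
      rw [map_mul]
      calc w (ι δ) * w (u m) ≤ 1 * R := mul_le_mul' hδ' (hm1 _)
        _ = R := one_mul R
    -- the leading term dominates
    have h2 : G.eval (u (m + 1)) = ∑ i ∈ Finset.range d, G.coeff i * u (m + 1) ^ i +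
        G.coeff d * u (m + 1) ^ d := by
      rw [eval_eq_sum_range' (Nat.lt_succ_of_le hdeg), Finset.sum_range_succ]
    have h3 : w (G.coeff d * u (m + 1) ^ d) * ρ ^ d = ρ * R ^ d := by
      rw [map_mul, map_pow, ← hR]
      calc w (G.coeff d) * R ^ d * ρ ^ d = (w (G.coeff d) * ρ ^ d) * R ^ d := by
            rw [mul_right_comm]
        _ = ρ * R ^ d := by rw [htop, one_mul]
    have h4 : ∀ i < d, w (G.coeff i * u (m + 1) ^ i) < w (G.coeff d * u (m + 1) ^ d) := by
      intro i hi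
      have hρd : 0 < ρ ^ d := pow_pos hρ d
      have h5 : w (G.coeff i * u (m + 1) ^ i) * ρ ^ d < ρ * R ^ d := by
        rw [map_mul, map_pow, ← hR]
        have e1 : ρ ^ d = ρ ^ i * ρ ^ (d - i) := by rw [← pow_add]; congr 1; omega
        have e2 : R ^ d = R ^ i * R ^ (d - i) := by rw [← pow_add]; congr 1; omega
        rw [e1, e2]
        calc w (G.coeff i) * R ^ i * (ρ ^ i * ρ ^ (d - i))
            = (w (G.coeff i) * ρ ^ i) * R ^ i * ρ ^ (d - i) := by
              rw [mul_assoc, mul_assoc, mul_assoc]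
              congr 1
              rw [mul_left_comm]
          _ ≤ (1 * ρ) * R ^ i * ρ ^ (d - i) :=
              mul_le_mul' (mul_le_mul' (hcoef i) le_rfl) le_rfl
          _ = (ρ * R ^ i) * ρ ^ (d - i) := by rw [one_mul]
          _ < (ρ * R ^ i) * R ^ (d - i) := by
              apply mul_lt_mul_of_pos_left _ (mul_pos hρ (pow_pos hR0 i))
              exact pow_lt_pow_left₀ hlt zero_le (by omega)
          _ = ρ * (R ^ i * R ^ (d - i)) := by rw [mul_assoc]
      rw [← h3] at h5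
      exact lt_of_mul_lt_mul_right h5 zero_le
    have htop0 : 0 < w (G.coeff d * u (m + 1) ^ d) := by
      have := h4 0 (by omega)
      exact lt_of_le_of_lt zero_le this
    have h5 : w (∑ i ∈ Finset.range d, G.coeff i * u (m + 1) ^ i) <
        w (G.coeff d * u (m + 1) ^ d) := by
      apply w.map_sum_lt htop0.ne'
      intro i hi
      exact h4 i (Finset.mem_range.mp hi)
    have h6 : w (G.eval (u (m + 1))) = w (G.coeff d * u (m + 1) ^ d) := by
      rw [h2]; exact w.map_add_eq_of_lt_right h5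
    rw [h6] at h1
    have h7 : w (G.coeff d * u (m + 1) ^ d) * ρ ^ d ≤ R * ρ ^ d := mul_le_mul' h1 le_rfl
    rw [h3] at h7
    -- `ρ R^d ≤ R ρ^d` contradicts `ρ < R`
    obtain ⟨e, rfl⟩ : ∃ e, d = e + 2 := ⟨d - 2, by omega⟩
    have h8 : R * ρ ^ (e + 2) < ρ * R ^ (e + 2) := by
      have e1 : R * ρ ^ (e + 2) = (ρ * R) * ρ ^ (e + 1) := by
        rw [pow_succ' ρ (e + 1), ← mul_assoc, mul_comm R ρ]
      have e2 : ρ * R ^ (e + 2) = (ρ * R) * R ^ (e + 1) := by
        rw [pow_succ' R (e + 1), ← mul_assoc]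
      rw [e1, e2]
      apply mul_lt_mul_of_pos_left _ (mul_pos hρ hR0)
      exact pow_lt_pow_left₀ hlt zero_le (by omega)
    exact absurd h7 (not_le.mpr h8)
  refine orbit_small (w.comap ι) hp hp0 hpv hq F δ hδ P hn hP (fun i j l => ?_)
  have hd1 : ∀ e, w (G.coeff (e + 1)) * ρ ^ e ≤ 1 := by
    intro e
    have h1 := hcoef (e + 1)
    rw [pow_succ, ← mul_assoc] at h1
    exact le_of_mul_le_mul_right h1 hρ
  have h1 := comp_sub_gn w G hd1 (u j) (ι (x i - x j)) (hsmall j) (by
    have e : ι (x i - x j) = u i - u j := by simp only [hu, map_sub]; ring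
    rw [e]
    exact (w.map_sub _ _).trans (max_le (hsmall i) (hsmall j))) l
  rw [one_mul] at h1
  have e : (G.comp (C (ι (x i - x j)) * X + C (u j))).coeff (l + 1) =
      ι ((F.comp (C (x i - x j) * X + C (x j))).coeff (l + 1)) := by
    rw [← coeff_map, Polynomial.map_comp, hGdef, sub_comp, C_comp, coeff_sub, coeff_C_succ,
      sub_zero, Polynomial.comp_assoc]
    congr 2
    simp only [hu, add_comp, X_comp, C_comp, Polynomial.map_add, Polynomial.map_mul, map_C, map_X,
      map_sub, Polynomial.map_sub]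
    ring
  rw [e] at h1
  exact h1

theorem good_small {E : Type*} [Field E] (w : Valuation E Γ₀) (ι : L →+* E)
    {p : ℕ} (hp : p.Prime) (hp0 : (p : L) ≠ 0) (hpv : (w.comap ι) (p : L) < 1)
    [Finite ((w.comap ι).valuationSubring ⧸
      Ideal.span {(p : (w.comap ι).valuationSubring) ^ 2})] {q : ℕ}
    (hq : Nat.card ((w.comap ι).valuationSubring ⧸
      Ideal.span {(p : (w.comap ι).valuationSubring) ^ 2}) ≤ q)
    (F : L[X]) (δ : L) (hδ : δ ≠ 0) (b : E) {d : ℕ} (hd : 2 ≤ d) (ρ : Γ₀)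
    (hG : GoodCond w ((F.map ι).comp (X + C b) - C ((1 + ι δ) * b)) d (max 1 (w (ι δ))) ρ)
    (P : L × L) {n : ℕ} (hn : 0 < n) (hP : (hm F δ)^[n] P = P) :
    PerLe (hm F δ) P (q ^ 6) := by
  rcases le_or_gt (w (ι δ)) 1 with h1 | h1
  · rw [max_eq_left h1] at hG
    exact good_small_aux w ι hp hp0 hpv hq F δ h1 b hd ρ hG P hn hP
  · rw [max_eq_right h1.le] at hG
    have hvδ : 0 < w (ι δ) := lt_of_le_of_lt zero_le h1
    have hδ' : ι δ ≠ 0 := (map_ne_zero ι).mpr hδ
    rw [← hm_inv_fix_iff F δ hδ] at hP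
    suffices hsuf : PerLe (hm (C δ⁻¹ * F) δ⁻¹) P.swap (q ^ 6) by
      obtain ⟨k, hk0, hkq, hk⟩ := hsuf
      exact ⟨k, hk0, hkq, (hm_inv_fix_iff F δ hδ).mp hk⟩
    refine good_small_aux w ι hp hp0 hpv hq _ _ ?_ b hd ρ ?_ _ hn hP
    · rw [map_inv₀]
      exact inv_le_one_of_one_le₀ h1.le
    · have e : ((C δ⁻¹ * F).map ι).comp (X + C b) - C ((1 + ι δ⁻¹) * b) =
          C (ι δ)⁻¹ * ((F.map ι).comp (X + C b) - C ((1 + ι δ) * b)) := by
        rw [Polynomial.map_mul, map_C, map_inv₀, mul_comp, C_comp, mul_sub, ← C_mul]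
        congr 2
        field_simp
        ring
      rw [e]
      obtain ⟨hdeg, hρ, hcoef, htop⟩ := hG
      refine ⟨?_, hρ, ?_, ?_⟩
      · exact (natDegree_C_mul_le _ _).trans hdeg
      · intro i
        rw [coeff_C_mul, map_mul, map_inv₀, mul_assoc, one_mul]
        calc (w (ι δ))⁻¹ * (w (((F.map ι).comp (X + C b) - C ((1 + ι δ) * b)).coeff i) * ρ ^ i)
            ≤ (w (ι δ))⁻¹ * (w (ι δ) * ρ) := mul_le_mul' le_rfl (hcoef i)
          _ = ρ := by rw [inv_mul_cancel_left₀ hvδ.ne']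
      · rw [coeff_C_mul, map_mul, map_inv₀, mul_assoc, one_mul, htop,
          inv_mul_cancel_left₀ hvδ.ne']

end Int

/-- the good reduction condition, for points of the plane over the algebraic closure -/
theorem point_small_good {K : Type*} [Field K] [NumberField K] {Γ₀ : Type*}
    [LinearOrderedCommGroupWithZero Γ₀]
    (w : Valuation (AlgebraicClosure K) Γ₀) {p : ℕ} (hp : p.Prime)
    (hpw : w (p : AlgebraicClosure K) < 1) {N d : ℕ} (hd : 2 ≤ d)
    (F : K[X]) (δ : K) (hδ : δ ≠ 0) (P : AlgebraicClosure K × AlgebraicClosure K)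
    (hN : finrank ℚ K *
      finrank K (IntermediateField.adjoin K ({P.1, P.2} : Set (AlgebraicClosure K))) ≤ N)
    (b : AlgebraicClosure K) (ρ : Γ₀)
    (hG : GoodCond w ((F.map (algebraMap K (AlgebraicClosure K))).comp (X + C b) -
      C ((1 + algebraMap K (AlgebraicClosure K) δ) * b)) d
      (max 1 (w (algebraMap K (AlgebraicClosure K) δ))) ρ)
    {n : ℕ} (hn : 0 < n) (hP : (henon F δ)^[n] P = P) :
    PerLe (henon F δ) P (p ^ (12 * N)) := by
  set L := IntermediateField.adjoin K ({P.1, P.2} : Set (AlgebraicClosure K)) with hL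
  have hfd : FiniteDimensional K L := by
    apply IntermediateField.finiteDimensional_adjoin
    intro x _
    exact Algebra.IsIntegral.isIntegral x
  have hcz : CharZero L := charZero_of_injective_algebraMap (algebraMap K L).injective
  have hfdQ : FiniteDimensional ℚ L := FiniteDimensional.trans ℚ K L
  have hdeg : finrank ℚ L ≤ N := by
    rw [← Module.finrank_mul_finrank ℚ K L]; exact hN
  have h1 : P.1 ∈ L := IntermediateField.subset_adjoin K _ (by simp)
  have h2 : P.2 ∈ L := IntermediateField.subset_adjoin K _ (by simp)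
  set Q : L × L := (⟨P.1, h1⟩, ⟨P.2, h2⟩) with hQ
  have hc := hm_map (algebraMap L (AlgebraicClosure K)) (F.map (algebraMap K L))
    (algebraMap K L δ)
  rw [Polynomial.map_map, ← IsScalarTower.algebraMap_eq K L (AlgebraicClosure K),
    ← IsScalarTower.algebraMap_apply K L (AlgebraicClosure K), ← henon_eq_hm] at hc
  have hinj : Injective (Prod.map (algebraMap L (AlgebraicClosure K))
      (algebraMap L (AlgebraicClosure K))) :=
    (algebraMap L (AlgebraicClosure K)).injective.prodMap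
      (algebraMap L (AlgebraicClosure K)).injective
  have hPQ : P = Prod.map (algebraMap L (AlgebraicClosure K))
      (algebraMap L (AlgebraicClosure K)) Q := rfl
  rw [hPQ, Semiconj.iterate_eq hc hinj] at hP
  set v := w.comap (algebraMap L (AlgebraicClosure K)) with hv
  have hpv : v (p : L) < 1 := by
    rw [hv, Valuation.comap_apply, map_natCast]; exact hpw
  obtain ⟨hfin, hcard⟩ := quot_p2_card (v.valuationSubring.subtype) Subtype.val_injective hp
  have hcard' : Nat.card (v.valuationSubring ⧸ Ideal.span {(p : v.valuationSubring) ^ 2}) ≤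
      p ^ (2 * N) := hcard.trans (Nat.pow_le_pow_right hp.pos (by omega))
  have e1 : algebraMap L (AlgebraicClosure K) (algebraMap K L δ) =
      algebraMap K (AlgebraicClosure K) δ := by
    rw [← IsScalarTower.algebraMap_apply]
  have e2 : (F.map (algebraMap K L)).map (algebraMap L (AlgebraicClosure K)) =
      F.map (algebraMap K (AlgebraicClosure K)) := by
    rw [Polynomial.map_map, ← IsScalarTower.algebraMap_eq]
  have hmain : PerLe (hm (F.map (algebraMap K L)) (algebraMap K L δ)) Q ((p ^ (2 * N)) ^ 6) := by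
    refine good_small w (algebraMap L (AlgebraicClosure K)) hp (by exact_mod_cast hp.ne_zero) hpv
      hcard' (F.map (algebraMap K L)) (algebraMap K L δ) ?_ b hd ρ ?_ Q hn hP
    · simpa using hδ
    · rw [e1, e2]; exact hG
  obtain ⟨k, hk0, hkq, hk⟩ := hmain
  refine ⟨k, hk0, ?_, ?_⟩
  · rw [← pow_mul] at hkq
    have e3 : 2 * N * 6 = 12 * N := by ring
    rwa [e3] at hkq
  · rw [hPQ, Semiconj.iterate_eq hc hinj]
    exact hk

end Pool.Agent.H.MP_0e6b5f_nt.BP
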