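import Pool.Agent.H.MP_0e6b5f_nt.BP.Good
import Pool.Agent.H.MP_0e6b5f_nt.BP.Above
import Pool.Agent.H.MP_0e6b5f_nt.BP.Small
import Pool.Agent.H.MP_0e6b5f_nt.DefsBad

/-!
# Uniform boundedness from one place of bounded norm at which the map is not bad
-/

namespace Pool.Agent.H.MP_0e6b5f_nt.BP

open NumberField Module Polynomial IsDedekindDomain HeightOneSpectrum
open Pool.Agent.H.MP_0e6b5f_nt Pool.Agent.H.MP_0e6b5f_nt.Eng

/-- If `v` is not a bad place, then for some valuation ring of the algebraic closure in which the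
rational primes below `v` are non-units, no two fixed points are far apart. -/
theorem exists_val_of_not_bad {K : Type*} [Field K] [NumberField K] {F : K[X]} {δ : K} {d : ℕ}
    (hd : 2 ≤ d) (hF : F.natDegree = d) {v : FinitePlace K} (hv : v ∉ badPlaces F δ) :
    ∃ W : ValuationSubring (AlgebraicClosure K),
      (∀ p : ℕ, v (p : K) < 1 → W.valuation (p : AlgebraicClosure K) < 1) ∧
      ∀ x y : AlgebraicClosure K,
        (F.map (algebraMap K (AlgebraicClosure K))).eval x -
          algebraMap K (AlgebraicClosure K) δ * x = x →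
        (F.map (algebraMap K (AlgebraicClosure K))).eval y -
          algebraMap K (AlgebraicClosure K) δ * y = y →
        W.valuation (F.map (algebraMap K (AlgebraicClosure K))).leadingCoeff *
          W.valuation (x - y) ^ (d - 1) ≤
            max 1 (W.valuation (algebraMap K (AlgebraicClosure K) δ)) := by
  classical
  set Ω := AlgebraicClosure K with hΩ
  set G : K[X] := F - C (1 + δ) * X with hG
  have hlow : (C (1 + δ) * X : K[X]).natDegree < F.natDegree := by
    have h1 := natDegree_C_mul_le (1 + δ) (X : K[X])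
    rw [natDegree_X] at h1
    rw [hF]
    exact lt_of_le_of_lt h1 (by omega)
  have hG0 : G ≠ 0 := by
    intro h
    have h1 : G.natDegree = d := by
      rw [hG, natDegree_sub_eq_left_of_natDegree_lt hlow, hF]
    rw [h, natDegree_zero] at h1
    omega
  -- the field generated by the fixed points
  set L : IntermediateField K Ω := IntermediateField.adjoin K (G.rootSet Ω) with hL
  have hfd : FiniteDimensional K L := by
    have : Finite (G.rootSet Ω) := (Polynomial.rootSet_finite G Ω).to_subtype
    exact IntermediateField.finiteDimensional_adjoin fun x _ => Algebra.IsIntegral.isIntegral x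
  have hcz : CharZero L := charZero_of_injective_algebraMap (algebraMap K L).injective
  have hfdQ : FiniteDimensional ℚ L := FiniteDimensional.trans ℚ K L
  have hnf : NumberField L := { to_charZero := hcz, to_finiteDimensional := hfdQ }
  obtain ⟨w, k, hk, hwk⟩ := exists_place_above (K := K) L v
  obtain ⟨W, hW⟩ := exists_valuation_ext' (E := Ω) w.maximalIdeal
  have hfar : ¬ FixedPointsFar w.val (F.map (algebraMap K L)) (algebraMap K L δ) := by
    intro h
    exact hv ⟨L, hnf, w, k, hk, hwk, h⟩
  have hle : ∀ z : L, w z ≤ 1 → W.valuation (algebraMap L Ω z) ≤ 1 := by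
    intro z hz
    have h1 := (Valuation.isEquiv_iff_val_le_one.mp hW (x := z)).mp ((place_le_one_iff w z).mp hz)
    exact h1
  refine ⟨W, ?_, ?_⟩
  · intro p hp
    have h1 : w (algebraMap K L (p : K)) < 1 := by
      rw [hwk]
      exact pow_lt_one₀ (apply_nonneg v.1 _) hp (by omega)
    have h2 := (place_lt_one_iff w _).mp h1
    have h3 := (Valuation.isEquiv_iff_val_lt_one.mp hW (x := algebraMap K L (p : K))).mp h2
    rw [Valuation.comap_apply, ← IsScalarTower.algebraMap_apply K L Ω, map_natCast] at h3
    exact h3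
  · have hmem : ∀ x : Ω, (F.map (algebraMap K Ω)).eval x - algebraMap K Ω δ * x = x →
        ∃ x' : L, algebraMap L Ω x' = x ∧
          (F.map (algebraMap K L)).eval x' - algebraMap K L δ * x' = x' := by
      intro x hx
      have h1 : x ∈ G.rootSet Ω := by
        rw [mem_rootSet]
        refine ⟨hG0, ?_⟩
        rw [eval_map_algebraMap] at hx
        rw [hG, map_sub, map_mul, aeval_C, aeval_X, map_add, map_one]
        linear_combination hx
      have h2 : x ∈ L := IntermediateField.subset_adjoin K _ h1
      refine ⟨⟨x, h2⟩, rfl, ?_⟩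
      apply (algebraMap L Ω).injective
      rw [map_sub, map_mul, ← IsScalarTower.algebraMap_apply K L Ω]
      have h3 : algebraMap L Ω ((F.map (algebraMap K L)).eval ⟨x, h2⟩) =
          (F.map (algebraMap K Ω)).eval x := by
        rw [eval_map_algebraMap, eval_map_algebraMap, ← aeval_algebraMap_apply]
        rfl
      rw [h3]
      exact hx
    intro x y hx hy
    obtain ⟨x', rfl, hx'⟩ := hmem x hx
    obtain ⟨y', rfl, hy'⟩ := hmem y hy
    have h1 : w (algebraMap K L F.leadingCoeff) * w (x' - y') ^ (d - 1) ≤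
        max 1 (w (algebraMap K L δ)) := by
      by_contra hlt
      push Not at hlt
      apply hfar
      refine ⟨x', y', hx', hy', ?_⟩
      rw [leadingCoeff_map, natDegree_map, hF]
      exact hlt
    rw [leadingCoeff_map, IsScalarTower.algebraMap_apply K L Ω F.leadingCoeff,
      IsScalarTower.algebraMap_apply K L Ω δ, ← map_sub, ← map_pow, ← map_mul, ← map_pow,
      ← map_mul]
    rcases le_total (w (algebraMap K L δ)) 1 with h2 | h2
    · rw [max_eq_left h2] at h1
      refine le_trans (hle _ ?_) (le_max_left _ _)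
      have e : w (algebraMap K L F.leadingCoeff * (x' - y') ^ (d - 1)) =
          w (algebraMap K L F.leadingCoeff) * w (x' - y') ^ (d - 1) := by
        rw [map_mul, map_pow]
      rw [e]; exact h1
    · rw [max_eq_right h2] at h1
      refine le_trans ?_ (le_max_right _ _)
      have hδ0 : algebraMap K L δ ≠ 0 := by
        intro h0
        rw [h0, map_zero] at h2
        exact absurd h2 (by norm_num)
      have hδw : 0 < w (algebraMap K L δ) := by linarith
      have h3 := hle (algebraMap K L F.leadingCoeff * (x' - y') ^ (d - 1) / algebraMap K L δ) (by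
        rw [map_div₀, map_mul, map_pow, div_le_one hδw]
        exact h1)
      rw [map_div₀, map_div₀] at h3
      have hWδ : 0 < W.valuation (algebraMap L Ω (algebraMap K L δ)) := by
        rw [zero_lt_iff, Ne, map_eq_zero, map_eq_zero]
        exact hδ0
      rwa [div_le_one₀ hWδ] at h3

/-- The period bound at a place which is not bad. -/
theorem period_of_not_bad {K : Type*} [Field K] [NumberField K] {F : K[X]} {δ : K} {d : ℕ}
    (hd : 2 ≤ d) (hF : F.natDegree = d) (hδ : δ ≠ 0) {v : FinitePlace K}
    (hv : v ∉ badPlaces F δ) {p : ℕ} (hp : p.Prime) (hvp : v (p : K) < 1) {B : ℕ}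
    {P : AlgebraicClosure K × AlgebraicClosure K} (hP : P ∈ perLE F δ B) :
    ∃ n, 1 ≤ n ∧ n ≤ p ^ (12 * (B * finrank ℚ K)) ∧ (henon F δ)^[n] P = P := by
  obtain ⟨⟨n, hn, hPn⟩, hPB⟩ := hP
  obtain ⟨W, hWp, hW⟩ := exists_val_of_not_bad hd hF hv
  obtain ⟨b, ρ, hG⟩ := goodCond_of_fixed W.valuation (F.map (algebraMap K (AlgebraicClosure K)))
    (algebraMap K (AlgebraicClosure K) δ) hd (by rw [natDegree_map]; exact hF) hW
  have hN : finrank ℚ K * finrank K
      (IntermediateField.adjoin K ({P.1, P.2} : Set (AlgebraicClosure K))) ≤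
        B * finrank ℚ K := by
    calc finrank ℚ K * finrank K
          (IntermediateField.adjoin K ({P.1, P.2} : Set (AlgebraicClosure K)))
        ≤ finrank ℚ K * B := Nat.mul_le_mul le_rfl hPB
      _ = B * finrank ℚ K := mul_comm _ _
  obtain ⟨k, hk0, hkM, hk⟩ :=
    point_small_good W.valuation hp (hWp p hvp) hd F δ hδ P hN b ρ hG hn hPn
  exact ⟨k, hk0, hkM, hk⟩

/-- The number of points with period at most `M`. -/
theorem encard_le_of_period {K : Type*} [Field K] {F : K[X]} {δ : K} {d : ℕ} (hd : 2 ≤ d)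
    (hF : F.natDegree = d) (M : ℕ) (T : Set (AlgebraicClosure K × AlgebraicClosure K))
    (hT : ∀ P ∈ T, ∃ n, 1 ≤ n ∧ n ≤ M ∧ (henon F δ)^[n] P = P) :
    T.encard ≤ ((∑ n ∈ Finset.range (M + 1), d ^ n : ℕ) : ℕ∞) := by
  induction M generalizing T with
  | zero =>
    have h0 : T = ∅ := by
      rw [Set.eq_empty_iff_forall_notMem]
      intro P hP
      obtain ⟨n, h1, h2, _⟩ := hT P hP
      omega
    rw [h0, Set.encard_empty]
    exact zero_le
  | succ M ih =>
    set T₁ := {P ∈ T | ∃ n, 1 ≤ n ∧ n ≤ M ∧ (henon F δ)^[n] P = P} with hT₁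
    set T₂ := {P ∈ T | (henon F δ)^[M + 1] P = P} with hT₂
    have hsub : T ⊆ T₁ ∪ T₂ := by
      intro P hP
      obtain ⟨n, h1, h2, h3⟩ := hT P hP
      rcases Nat.lt_or_ge M n with h4 | h4
      · have : n = M + 1 := by omega
        subst this
        exact Or.inr ⟨hP, h3⟩
      · exact Or.inl ⟨hP, n, h1, h4, h3⟩
    have h1 := ih T₁ fun P hP => hP.2
    have h2 : T₂.encard ≤ (d ^ (M + 1) : ℕ) :=
      encard_le_of_iterate hd hF (Nat.succ_pos M) fun P hP => hP.2
    calc T.encard ≤ (T₁ ∪ T₂).encard := Set.encard_le_encard hsub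
      _ ≤ T₁.encard + T₂.encard := Set.encard_union_le _ _
      _ ≤ ((∑ n ∈ Finset.range (M + 1), d ^ n : ℕ) : ℕ∞) + (d ^ (M + 1) : ℕ) :=
          add_le_add h1 h2
      _ = ((∑ n ∈ Finset.range (M + 1 + 1), d ^ n : ℕ) : ℕ∞) := by
          rw [Finset.sum_range_succ _ (M + 1), Nat.cast_add]

/-- Finiteness and the bound for the number of points with period at most `M`. -/
theorem finite_of_period {K : Type*} [Field K] {F : K[X]} {δ : K} {d : ℕ} (hd : 2 ≤ d)
    (hF : F.natDegree = d) (M : ℕ) (T : Set (AlgebraicClosure K × AlgebraicClosure K))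
    (hT : ∀ P ∈ T, ∃ n, 1 ≤ n ∧ n ≤ M ∧ (henon F δ)^[n] P = P) :
    T.Finite ∧ T.ncard ≤ d ^ (M + 1) := by
  have h1 := encard_le_of_period hd hF M T hT
  have hfin : T.Finite := Set.finite_of_encard_le_coe h1
  refine ⟨hfin, ?_⟩
  rw [← hfin.cast_ncard_eq] at h1
  have h2 : T.ncard ≤ ∑ n ∈ Finset.range (M + 1), d ^ n := by exact_mod_cast h1
  exact h2.trans (Nat.geomSum_lt hd fun k hk => Finset.mem_range.mp hk).le

end Pool.Agent.H.MP_0e6b5f_nt.BP
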