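import Pool.Agent.H.MP_0e6b5f_nt.Eng.Places

/-!
# A valuation of a number field above a prime number is a finite place
-/

namespace Pool.Agent.H.MP_0e6b5f_nt.BP

open NumberField IsDedekindDomain HeightOneSpectrum

variable {L : Type*} [Field L] [NumberField L] {Γ₀ : Type*}
  [LinearOrderedCommGroupWithZero Γ₀]

/-- an algebraic integer has value at most 1 -/
theorem val_int_le_one (v : Valuation L Γ₀) (x : 𝓞 L) : v (algebraMap (𝓞 L) L x) ≤ 1 := by
  have h : IsIntegral ℤ (algebraMap (𝓞 L) L x) := x.isIntegral_coe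
  have h2 : IsIntegral v.valuationSubring (algebraMap (𝓞 L) L x) := h.tower_top
  obtain ⟨y, hy⟩ := IsIntegrallyClosed.isIntegral_iff.mp h2
  rw [← hy]
  exact y.2

/-- the ring homomorphism from the integers to the valuation ring -/
noncomputable def toVal (v : Valuation L Γ₀) : 𝓞 L →+* v.valuationSubring :=
  (algebraMap (𝓞 L) L).codRestrict v.valuationSubring.toSubring (val_int_le_one v)

theorem mem_comap_iff (v : Valuation L Γ₀) (x : 𝓞 L) :
    x ∈ (IsLocalRing.maximalIdeal v.valuationSubring).comap (toVal v) ↔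
      v (algebraMap (𝓞 L) L x) < 1 := by
  rw [Ideal.mem_comap, Valuation.mem_maximalIdeal_iff]
  rfl

/-- A valuation of a number field with `v p < 1` is equivalent to a finite place. -/
theorem exists_finitePlace (v : Valuation L Γ₀) {p : ℕ} (hp : p.Prime) (hpv : v (p : L) < 1) :
    ∃ w : FinitePlace L, ∀ x y : L, v x ≤ v y ↔ w x ≤ w y := by
  have hne : (IsLocalRing.maximalIdeal v.valuationSubring).comap (toVal v) ≠ ⊥ := by
    intro h
    have h1 : (p : 𝓞 L) ∈ (IsLocalRing.maximalIdeal v.valuationSubring).comap (toVal v) := by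
      rw [mem_comap_iff, map_natCast]; exact hpv
    rw [h, Ideal.mem_bot] at h1
    exact hp.ne_zero (by exact_mod_cast h1)
  let Q : HeightOneSpectrum (𝓞 L) :=
    ⟨(IsLocalRing.maximalIdeal v.valuationSubring).comap (toVal v), inferInstance, hne⟩
  have hle : (Q.valuation L).valuationSubring ≤ v.valuationSubring := by
    intro x hx
    obtain ⟨n, d, hnd⟩ := exists_primeCompl_mul_eq_of_integer Q x hx
    have hd : (d : 𝓞 L) ∉ Q.asIdeal := d.2
    have hd1 : v (algebraMap (𝓞 L) L d) = 1 := by
      refine le_antisymm (val_int_le_one v d) (not_lt.mp fun h => hd ?_)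
      exact (mem_comap_iff v d).mpr h
    have h2 : v x * v (algebraMap (𝓞 L) L d) = v (algebraMap (𝓞 L) L n) := by
      rw [← map_mul, hnd]
    rw [hd1, mul_one] at h2
    change v x ≤ 1
    rw [h2]
    exact val_int_le_one v n
  have hnt : v.valuationSubring ≠ ⊤ := by
    intro h
    have h1 : ((p : L)⁻¹) ∈ v.valuationSubring := by rw [h]; trivial
    have h2 : v ((p : L)⁻¹) ≤ 1 := h1
    have hp0 : (p : L) ≠ 0 := by exact_mod_cast hp.ne_zero
    have h3 : v (p : L) * v ((p : L)⁻¹) = 1 := by
      rw [← map_mul, mul_inv_cancel₀ hp0, map_one]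
    have h4 : v (p : L) * v ((p : L)⁻¹) < 1 := mul_lt_one_of_lt_of_le hpv h2
    exact absurd h3 h4.ne
  have heq : (Q.valuation L).valuationSubring = v.valuationSubring := by
    rw [← valuationSubringAtPrime_eq_valuationSubring] at hle ⊢
    exact ValuationSubring.eq_of_le_of_ne_top _ hle hnt
  have hE : v.IsEquiv (Q.valuation L) := (Valuation.isEquiv_iff_valuationSubring _ _).mpr heq.symm
  refine ⟨FinitePlace.mk Q, fun x y => ?_⟩
  rw [FinitePlace.mk_apply, FinitePlace.mk_apply, FinitePlace.norm_embedding',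
    FinitePlace.norm_embedding', NNReal.coe_le_coe,
    (WithZeroMulInt.toNNReal_strictMono (one_lt_absNorm_nnreal Q)).le_iff_le]
  exact hE x y

end Pool.Agent.H.MP_0e6b5f_nt.BP
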